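import Mathlib
import Pool.Agent.V11295.ProgDim

/-! # Cantor sets from integer point sets which contain progressions -/

set_option autoImplicit false

open Finset Filter Topology

namespace Run7.h605.KD

open Pool.Agent.W46.KK Pool.Agent.V11295.ProgAny

theorem coverNum_le_card {n : ℕ} {B : Set (EuclideanSpace ℝ (Fin n))} {δ : ℝ} {ι : Type} [Fintype ι]
    (U : ι → Set (EuclideanSpace ℝ (Fin n))) (h1 : ∀ i, ∀ x ∈ U i, ∀ y ∈ U i, dist x y ≤ δ)
    (h2 : B ⊆ ⋃ i, U i) : coverNum B δ ≤ Fintype.card ι := by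
  let e := Fintype.equivFin ι
  refine Nat.sInf_le ⟨fun i => U (e.symm i), fun i => h1 _, ?_⟩
  intro x hx
  obtain ⟨i, hi⟩ := Set.mem_iUnion.1 (h2 hx)
  exact Set.mem_iUnion.2 ⟨e i, by simpa using hi⟩

theorem dist_le_of_coord {n : ℕ} {x y : EuclideanSpace ℝ (Fin n)} {s : ℝ} (hs : 0 ≤ s)
    (h : ∀ i, |x i - y i| ≤ s) : dist x y ≤ (n + 1) * s := by
  rw [EuclideanSpace.dist_eq]
  refine Real.sqrt_le_iff.mpr ⟨by positivity, ?_⟩
  calc ∑ l, dist (x l) (y l) ^ 2 ≤ ∑ _l : Fin n, s ^ 2 := by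
        refine Finset.sum_le_sum fun l _ => ?_
        rw [Real.dist_eq]
        exact pow_le_pow_left₀ (abs_nonneg _) (h l) 2
    _ = n * s ^ 2 := by
        rw [Finset.sum_const, Finset.card_univ, Fintype.card_fin, nsmul_eq_mul]
    _ ≤ ((n + 1) * s) ^ 2 := by
        have h6 : (n : ℝ) ≤ ((n : ℝ) + 1) ^ 2 := by nlinarith [Nat.cast_nonneg (α := ℝ) n]
        rw [mul_pow]
        exact mul_le_mul_of_nonneg_right h6 (sq_nonneg _)

theorem summ {N : ℕ} (hN : 2 ≤ N) {M : ℝ} (w : ℕ → ℝ) (hw : ∀ t, |w t| ≤ M) :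
    Summable fun t => w t * ((N : ℝ) ^ (t + 1))⁻¹ := by
  have hNr : (2 : ℝ) ≤ N := by exact_mod_cast hN
  have hlt : ((N : ℝ))⁻¹ < 1 := inv_lt_one_of_one_lt₀ (by linarith)
  refine Summable.of_norm_bounded (g := fun t => (M * (N : ℝ)⁻¹) * ((N : ℝ)⁻¹) ^ t)
    ((summable_geometric_of_lt_one (by positivity) hlt).mul_left _) ?_
  intro t
  rw [norm_mul, Real.norm_eq_abs, norm_inv, norm_pow, Real.norm_of_nonneg (by positivity : (0 : ℝ) ≤ N)]
  rw [pow_succ, mul_inv, inv_pow]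
  have h1 : 0 ≤ ((N : ℝ) ^ t)⁻¹ * (N : ℝ)⁻¹ := by positivity
  calc |w t| * (((N : ℝ) ^ t)⁻¹ * (N : ℝ)⁻¹) ≤ M * (((N : ℝ) ^ t)⁻¹ * (N : ℝ)⁻¹) :=
        mul_le_mul_of_nonneg_right (hw t) h1
    _ = M * (N : ℝ)⁻¹ * ((N : ℝ) ^ t)⁻¹ := by ring

theorem near {N : ℕ} (hN : 2 ≤ N) {M : ℝ} (w w' : ℕ → ℝ) (hw : ∀ t, |w t| ≤ M)
    (hw' : ∀ t, |w' t| ≤ M) (T : ℕ) (h : ∀ t < T, w t = w' t) :
    |(∑' t, w t * ((N : ℝ) ^ (t + 1))⁻¹) - ∑' t, w' t * ((N : ℝ) ^ (t + 1))⁻¹| ≤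
      2 * M * ((N : ℝ) ^ T)⁻¹ := by
  have hNr : (2 : ℝ) ≤ N := by exact_mod_cast hN
  have hlt : ((N : ℝ))⁻¹ < 1 := inv_lt_one_of_one_lt₀ (by linarith)
  have hM : 0 ≤ M := (abs_nonneg _).trans (hw 0)
  have s1 := summ hN w hw
  have s2 := summ hN w' hw'
  rw [← s1.tsum_sub s2, ← (s1.sub s2).sum_add_tsum_nat_add T]
  have h0 : ∑ t ∈ range T, (w t * ((N : ℝ) ^ (t + 1))⁻¹ - w' t * ((N : ℝ) ^ (t + 1))⁻¹) = 0 := by
    refine sum_eq_zero fun t ht => ?_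
    rw [h t (mem_range.1 ht), sub_self]
  rw [h0, zero_add, ← Real.norm_eq_abs]
  have hg : HasSum (fun t : ℕ => (2 * M * ((N : ℝ) ^ T)⁻¹ * (N : ℝ)⁻¹) * ((N : ℝ)⁻¹) ^ t)
      ((2 * M * ((N : ℝ) ^ T)⁻¹ * (N : ℝ)⁻¹) * (1 - (N : ℝ)⁻¹)⁻¹) :=
    (hasSum_geometric_of_lt_one (by positivity) hlt).mul_left _
  refine (tsum_of_norm_bounded hg ?_).trans ?_
  · intro t
    rw [← sub_mul, norm_mul, Real.norm_eq_abs, norm_inv, norm_pow,
      Real.norm_of_nonneg (by positivity : (0 : ℝ) ≤ N)]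
    have h1 : |w (t + T) - w' (t + T)| ≤ 2 * M := by
      have h2 := hw (t + T)
      have h3 := hw' (t + T)
      rw [abs_le] at h2 h3 ⊢
      constructor <;> linarith [h2.1, h2.2, h3.1, h3.2]
    have h4 : ((N : ℝ) ^ (t + T + 1))⁻¹ = ((N : ℝ) ^ T)⁻¹ * (N : ℝ)⁻¹ * ((N : ℝ)⁻¹) ^ t := by
      rw [inv_pow, ← mul_inv, ← mul_inv]
      congr 1
      ring
    rw [h4]
    calc |w (t + T) - w' (t + T)| * (((N : ℝ) ^ T)⁻¹ * (N : ℝ)⁻¹ * ((N : ℝ)⁻¹) ^ t)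
        ≤ 2 * M * (((N : ℝ) ^ T)⁻¹ * (N : ℝ)⁻¹ * ((N : ℝ)⁻¹) ^ t) :=
          mul_le_mul_of_nonneg_right h1 (by positivity)
      _ = _ := by ring
  · have h2 : (N : ℝ)⁻¹ * (1 - (N : ℝ)⁻¹)⁻¹ ≤ 1 := by
      have h3 : (1 - (N : ℝ)⁻¹) ≥ (N : ℝ)⁻¹ := by
        have : (N : ℝ)⁻¹ ≤ (2 : ℝ)⁻¹ := inv_anti₀ (by norm_num) hNr
        norm_num at this ⊢
        linarith
      rw [← div_eq_mul_inv, div_le_one (by linarith [show (0 : ℝ) < (N : ℝ)⁻¹ by positivity])]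
      exact h3
    calc (2 * M * ((N : ℝ) ^ T)⁻¹ * (N : ℝ)⁻¹) * (1 - (N : ℝ)⁻¹)⁻¹ =
          (2 * M * ((N : ℝ) ^ T)⁻¹) * ((N : ℝ)⁻¹ * (1 - (N : ℝ)⁻¹)⁻¹) := by ring
      _ ≤ (2 * M * ((N : ℝ) ^ T)⁻¹) * 1 := mul_le_mul_of_nonneg_left h2 (by positivity)
      _ = _ := mul_one _

/-- the point with the digits `w t` -/
noncomputable def pt {n : ℕ} (N : ℕ) (w : ℕ → Fin n → ℤ) : EuclideanSpace ℝ (Fin n) :=
  WithLp.toLp 2 fun i => ∑' t, (w t i : ℝ) * ((N : ℝ) ^ (t + 1))⁻¹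

/-- the Cantor set with digits in `A` -/
def cantor {n : ℕ} (N : ℕ) (A : Finset (Fin n → ℤ)) : Set (EuclideanSpace ℝ (Fin n)) :=
  {x | ∃ w : ℕ → Fin n → ℤ, (∀ t, w t ∈ A) ∧ x = pt N w}

theorem exists_bound {n : ℕ} (A : Finset (Fin n → ℤ)) :
    ∃ M : ℝ, 1 ≤ M ∧ ∀ a ∈ A, ∀ i, |(a i : ℝ)| ≤ M := by
  classical
  refine ⟨1 + ∑ a ∈ A, ∑ i, |(a i : ℝ)|, ?_, ?_⟩
  · have : 0 ≤ ∑ a ∈ A, ∑ i, |(a i : ℝ)| := sum_nonneg fun a _ => sum_nonneg fun i _ => abs_nonneg _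
    linarith
  · intro a ha i
    have h1 : |(a i : ℝ)| ≤ ∑ i, |(a i : ℝ)| :=
      single_le_sum (f := fun i => |(a i : ℝ)|) (fun _ _ => abs_nonneg _) (mem_univ i)
    have h2 : ∑ i, |(a i : ℝ)| ≤ ∑ a ∈ A, ∑ i, |(a i : ℝ)| :=
      single_le_sum (f := fun a : Fin n → ℤ => ∑ i, |(a i : ℝ)|)
        (fun _ _ => sum_nonneg fun i _ => abs_nonneg _) ha
    linarith

theorem cantor_cover {n N : ℕ} (hN : 2 ≤ N) (A : Finset (Fin n → ℤ)) {M : ℝ}
    (hM : ∀ a ∈ A, ∀ i, |(a i : ℝ)| ≤ M) (hM0 : 0 ≤ M) (T : ℕ) {δ : ℝ}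
    (hδ : (n + 1) * (2 * M * ((N : ℝ) ^ T)⁻¹) ≤ δ) : coverNum (cantor N A) δ ≤ A.card ^ T := by
  classical
  have hc : Fintype.card (Fin T → A) = A.card ^ T := by
    rw [Fintype.card_pi, prod_const, card_univ, Fintype.card_fin, Fintype.card_coe]
  rw [← hc]
  refine coverNum_le_card (fun u : Fin T → A =>
    {x | ∃ w : ℕ → Fin n → ℤ, (∀ t, w t ∈ A) ∧ (∀ t : Fin T, w t = u t) ∧ x = pt N w}) ?_ ?_
  · rintro u x ⟨w, hw1, hw2, rfl⟩ y ⟨w', hw1', hw2', rfl⟩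
    refine (dist_le_of_coord (by positivity) fun i => ?_).trans hδ
    exact near hN (fun t => (w t i : ℝ)) (fun t => (w' t i : ℝ)) (fun t => hM _ (hw1 t) i)
      (fun t => hM _ (hw1' t) i) T (fun t ht => by
        have h1 := hw2 ⟨t, ht⟩
        have h2 := hw2' ⟨t, ht⟩
        simp only at h1 h2
        simp only [h1, h2])
  · rintro x ⟨w, hw1, rfl⟩
    refine Set.mem_iUnion.2 ⟨fun t => ⟨w t, hw1 t⟩, w, hw1, fun t => rfl, rfl⟩

theorem cantor_bounded {n N : ℕ} (hN : 2 ≤ N) (A : Finset (Fin n → ℤ)) :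
    Bornology.IsBounded (cantor N A) := by
  obtain ⟨M, hM1, hM⟩ := exists_bound A
  rw [Metric.isBounded_iff]
  refine ⟨(n + 1) * (2 * M * ((N : ℝ) ^ 0)⁻¹), ?_⟩
  rintro x ⟨w, hw, rfl⟩ y ⟨w', hw', rfl⟩
  refine dist_le_of_coord (by positivity) fun i => ?_
  exact near hN (fun t => (w t i : ℝ)) (fun t => (w' t i : ℝ)) (fun t => hM _ (hw t) i)
    (fun t => hM _ (hw' t) i) 0 (fun t ht => absurd ht (by omega))

theorem cantor_upper {n N : ℕ} (hN : 2 ≤ N) (A : Finset (Fin n → ℤ)) (hA : A.Nonempty) :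
    upperMinkowski (cantor N A) ≤ ((Real.log A.card / Real.log N : ℝ) : EReal) := by
  obtain ⟨M, hM1, hM⟩ := exists_bound A
  have hNr : (2 : ℝ) ≤ N := by exact_mod_cast hN
  have hlogN : 0 < Real.log N := Real.log_pos (by linarith)
  have hcard : (1 : ℝ) ≤ A.card := by exact_mod_cast card_pos.2 hA
  have hlogA : 0 ≤ Real.log A.card := Real.log_nonneg hcard
  set L := Real.log A.card / Real.log N with hL
  have hL0 : 0 ≤ L := div_nonneg hlogA hlogN.le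
  set c : ℝ := (n + 1) * (2 * M) with hc
  have hc1 : 1 ≤ c := by
    rw [hc]
    have : (0 : ℝ) ≤ n := Nat.cast_nonneg n
    nlinarith
  have hlogc : 0 ≤ Real.log c := Real.log_nonneg hc1
  by_contra hcon
  push Not at hcon
  obtain ⟨y, hy1, hy2⟩ := EReal.lt_iff_exists_real_btwn.mp hcon
  have hy : L < y := by exact_mod_cast hy1
  refine absurd hy2 (not_lt.2 ?_)
  refine limsup_le_of_le (by isBoundedDefault) ?_
  filter_upwards [eventually_small, eventually_log ((L * Real.log c + Real.log A.card) / (y - L))]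
    with δ h1 h2
  have hLδ := log_inv_pos h1.1 h1.2
  rw [EReal.coe_le_coe_iff, div_le_iff₀ hLδ]
  rw [div_lt_iff₀ (by linarith)] at h2
  set T : ℕ := ⌈Real.log (c / δ) / Real.log N⌉₊ with hT
  have hcδ : 1 ≤ c / δ := by
    rw [le_div_iff₀ h1.1]
    linarith [h1.2]
  have hT1 : Real.log (c / δ) ≤ T * Real.log N := by
    have := Nat.le_ceil (Real.log (c / δ) / Real.log N)
    rwa [div_le_iff₀ hlogN] at this
  have hT2 : (T : ℝ) ≤ Real.log (c / δ) / Real.log N + 1 :=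
    (Nat.ceil_lt_add_one (div_nonneg (Real.log_nonneg hcδ) hlogN.le)).le
  have hNT : c / δ ≤ (N : ℝ) ^ T := by
    rw [← Real.log_le_log_iff (by linarith) (by positivity), Real.log_pow]
    exact hT1
  have hcov := cantor_cover hN A hM (by linarith) T (δ := δ) (by
    rw [div_le_iff₀ h1.1] at hNT
    calc (n + 1) * (2 * M * ((N : ℝ) ^ T)⁻¹) = c * ((N : ℝ) ^ T)⁻¹ := by rw [hc]; ring
      _ ≤ ((N : ℝ) ^ T * δ) * ((N : ℝ) ^ T)⁻¹ := mul_le_mul_of_nonneg_right hNT (by positivity)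
      _ = δ := by field_simp)
  have hlog : Real.log (coverNum (cantor N A) δ) ≤ T * Real.log A.card := by
    rcases Nat.eq_zero_or_pos (coverNum (cantor N A) δ) with h0 | h0
    · rw [h0, Nat.cast_zero, Real.log_zero]
      positivity
    · rw [← Real.log_pow]
      refine Real.log_le_log (by exact_mod_cast h0) ?_
      exact_mod_cast hcov
  have hlogd : Real.log (c / δ) = Real.log c + Real.log (1 / δ) := by
    rw [← Real.log_mul (by linarith) (by have := h1.1; positivity)]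
    congr 1
    ring
  calc Real.log (coverNum (cantor N A) δ) ≤ T * Real.log A.card := hlog
    _ ≤ (Real.log (c / δ) / Real.log N + 1) * Real.log A.card :=
        mul_le_mul_of_nonneg_right hT2 hlogA
    _ = L * Real.log (1 / δ) + (L * Real.log c + Real.log A.card) := by
        rw [hlogd, hL]
        field_simp
        ring
    _ ≤ y * Real.log (1 / δ) := by nlinarith

/-- an integer point set with progressions gives an upper bound for `f^M_n(m)` -/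
theorem fM_le {n m N : ℕ} (hm : 1 ≤ m) (hN : 2 ≤ N) (A : Finset (Fin n → ℤ))
    (h : ∀ v : Fin n → ℤ, (∀ i, 0 ≤ v i ∧ v i < N) → ∃ a : Fin n → ℤ, ∀ j < m,
      (fun i => a i + (j : ℤ) * v i) ∈ A) :
    fM n m ≤ ((Real.log A.card / Real.log N : ℝ) : EReal) := by
  classical
  have hNr : (2 : ℝ) ≤ N := by exact_mod_cast hN
  have hA : A.Nonempty := by
    obtain ⟨a, ha⟩ := h 0 (fun i => ⟨le_rfl, by simp; omega⟩)
    exact ⟨_, ha 0 (by omega)⟩
  obtain ⟨M, hM1, hM⟩ := exists_bound A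
  refine le_trans ?_ (cantor_upper hN A hA)
  unfold fM
  refine iInf_le_of_le (cantor N A) (iInf_le_of_le (cantor_bounded hN A) (iInf_le_of_le ?_ le_rfl))
  intro r hr
  have h1 : ∀ i, ∃ d : ℕ → Fin N, Real.ofDigits d = r i := by
    intro i
    obtain ⟨d, -, hd⟩ := Real.ofDigits_SurjOn (b := N) (by omega) (hr i)
    exact ⟨d, hd⟩
  choose d hd using h1
  set v : ℕ → Fin n → ℤ := fun t i => ((d i t : ℕ) : ℤ) with hv
  have hvr : ∀ t i, 0 ≤ v t i ∧ v t i < N := by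
    intro t i
    simp only [hv]
    have := (d i t).2
    constructor
    · positivity
    · exact_mod_cast this
  choose w hw using fun t => h (v t) (hvr t)
  have hwA : ∀ t, w t ∈ A := by
    intro t
    have := hw t 0 (by omega)
    simpa using this
  refine ⟨pt N w, fun j hj => ⟨fun t i => w t i + (j : ℤ) * v t i, fun t => hw t j hj, ?_⟩⟩
  ext i
  have s1 := summ hN (fun t => (w t i : ℝ)) (fun t => hM _ (hwA t) i)
  have s2 := summ hN (M := N) (fun t => (v t i : ℝ)) (fun t => by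
    have := hvr t i
    rw [abs_of_nonneg (by exact_mod_cast this.1)]
    exact_mod_cast this.2.le)
  have hri : r i = ∑' t, (v t i : ℝ) * ((N : ℝ) ^ (t + 1))⁻¹ := by
    rw [← hd i]
    unfold Real.ofDigits Real.ofDigitsTerm
    refine tsum_congr fun t => ?_
    simp only [hv]
    push_cast
    rfl
  simp only [pt, PiLp.add_apply, PiLp.smul_apply, smul_eq_mul]
  rw [hri, ← tsum_mul_left, ← s1.tsum_add (s2.mul_left _)]
  refine tsum_congr fun t => ?_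
  push_cast
  ring

end Run7.h605.KD
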