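import Mathlib
import Pool.Agent.Run7.h605.KD.Cantor

/-! # From many common differences to all of them -/

set_option autoImplicit false

open Finset

namespace Run7.h605.KD

open Pool.Agent.W46.KK

theorem greedy {α β : Type} [DecidableEq α] [DecidableEq β] (X : Finset α) (T : Finset β)
    (hT : T.Nonempty) (rel : α → β → Prop) [∀ x t, Decidable (rel x t)] (p : ℝ)
    (h : ∀ x ∈ X, p * (T.card : ℝ) ≤ ((T.filter fun t => rel x t).card : ℝ)) (hp1 : p ≤ 1) (k : ℕ) :
    ∃ C ⊆ T, C.card ≤ k ∧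
      ((X.filter fun x => ∀ t ∈ C, ¬ rel x t).card : ℝ) ≤ (X.card : ℝ) * (1 - p) ^ k := by
  have hTr : (0 : ℝ) < T.card := by exact_mod_cast card_pos.2 hT
  induction k with
  | zero =>
    refine ⟨∅, empty_subset _, le_rfl, ?_⟩
    rw [pow_zero, mul_one]
    exact_mod_cast card_filter_le _ _
  | succ k ih =>
    obtain ⟨C, hC, hCk, hcard⟩ := ih
    set Y := X.filter fun x => ∀ t ∈ C, ¬ rel x t with hY
    have hsum : p * (Y.card : ℝ) * T.card ≤ ∑ t ∈ T, ((Y.filter fun x => rel x t).card : ℝ) := by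
      have e : ∑ t ∈ T, ((Y.filter fun x => rel x t).card : ℝ) =
          ∑ x ∈ Y, ((T.filter fun t => rel x t).card : ℝ) := by
        simp_rw [card_filter]
        push_cast
        rw [sum_comm]
      rw [e]
      calc p * (Y.card : ℝ) * T.card = ∑ _x ∈ Y, p * (T.card : ℝ) := by
            rw [sum_const, nsmul_eq_mul]; ring
        _ ≤ _ := sum_le_sum fun x hx => h x (mem_filter.1 hx).1
    obtain ⟨t, ht, htc⟩ : ∃ t ∈ T, p * (Y.card : ℝ) ≤ ((Y.filter fun x => rel x t).card : ℝ) := by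
      by_contra hcon
      push Not at hcon
      have h1 : ∑ t ∈ T, ((Y.filter fun x => rel x t).card : ℝ) < ∑ _t ∈ T, p * (Y.card : ℝ) :=
        sum_lt_sum_of_nonempty hT fun t ht => hcon t ht
      rw [sum_const, nsmul_eq_mul] at h1
      linarith [mul_comm (T.card : ℝ) (p * (Y.card : ℝ))]
    refine ⟨insert t C, insert_subset ht hC, (card_insert_le _ _).trans (by omega), ?_⟩
    have e : (X.filter fun x => ∀ s ∈ insert t C, ¬ rel x s) = Y.filter fun x => ¬ rel x t := by
      ext x
      simp only [hY, mem_filter, mem_insert]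
      constructor
      · rintro ⟨h1, h2⟩
        exact ⟨⟨h1, fun s hs => h2 s (Or.inr hs)⟩, h2 t (Or.inl rfl)⟩
      · rintro ⟨⟨h1, h2⟩, h3⟩
        refine ⟨h1, fun s hs => ?_⟩
        rcases hs with rfl | hs
        · exact h3
        · exact h2 s hs
    rw [e]
    have h2 : ((Y.filter fun x => rel x t).card : ℝ) + ((Y.filter fun x => ¬ rel x t).card : ℝ) =
        Y.card := by
      exact_mod_cast card_filter_add_card_filter_not (s := Y) (fun x => rel x t)
    calc ((Y.filter fun x => ¬ rel x t).card : ℝ) ≤ (Y.card : ℝ) * (1 - p) := by linarith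
      _ ≤ ((X.card : ℝ) * (1 - p) ^ k) * (1 - p) :=
          mul_le_mul_of_nonneg_right hcard (by linarith)
      _ = (X.card : ℝ) * (1 - p) ^ (k + 1) := by ring

theorem greedy_cover {α β : Type} [DecidableEq α] [DecidableEq β] (X : Finset α) (T : Finset β)
    (hT : T.Nonempty) (rel : α → β → Prop) [∀ x t, Decidable (rel x t)] (p : ℝ) (hp : 0 < p)
    (h : ∀ x ∈ X, p * (T.card : ℝ) ≤ ((T.filter fun t => rel x t).card : ℝ)) (hp1 : p ≤ 1)
    (hX : 1 ≤ X.card) :
    ∃ C ⊆ T, (C.card : ℝ) ≤ Real.log X.card / p + 1 ∧ ∀ x ∈ X, ∃ t ∈ C, rel x t := by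
  have hXr : (1 : ℝ) ≤ X.card := by exact_mod_cast hX
  have hlog : 0 ≤ Real.log X.card := Real.log_nonneg hXr
  set k : ℕ := ⌊Real.log X.card / p⌋₊ + 1 with hk
  obtain ⟨C, hC, hCk, hcard⟩ := greedy X T hT rel p h hp1 k
  refine ⟨C, hC, ?_, ?_⟩
  · have h1 : (C.card : ℝ) ≤ k := by exact_mod_cast hCk
    have h2 := Nat.floor_le (div_nonneg hlog hp.le)
    rw [hk] at h1
    push_cast at h1
    linarith
  · intro x hx
    by_contra hcon
    push Not at hcon
    have h1 : 1 ≤ (X.filter fun x => ∀ t ∈ C, ¬ rel x t).card :=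
      card_pos.2 ⟨x, mem_filter.2 ⟨hx, hcon⟩⟩
    have h2 : (1 : ℝ) ≤ (X.card : ℝ) * (1 - p) ^ k := le_trans (by exact_mod_cast h1) hcard
    have h3 : (1 - p) ^ k ≤ Real.exp (-(p * k)) := by
      have h4 : 1 - p ≤ Real.exp (-p) := by
        have := Real.add_one_le_exp (-p)
        linarith
      calc (1 - p) ^ k ≤ (Real.exp (-p)) ^ k := pow_le_pow_left₀ (by linarith) h4 k
        _ = Real.exp (-(p * k)) := by rw [← Real.exp_nat_mul]; congr 1; ring
    have h5 : Real.log X.card < p * k := by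
      have h6 := Nat.lt_floor_add_one (Real.log X.card / p)
      rw [div_lt_iff₀ hp] at h6
      rw [hk]
      push_cast
      linarith
    have h7 : (X.card : ℝ) * Real.exp (-(p * k)) < 1 := by
      calc (X.card : ℝ) * Real.exp (-(p * k)) < (X.card : ℝ) * Real.exp (-(Real.log X.card)) := by
            refine mul_lt_mul_of_pos_left ?_ (by linarith)
            exact Real.exp_lt_exp.2 (by linarith)
        _ = 1 := by
            rw [Real.exp_neg, Real.exp_log (by linarith)]
            field_simp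
    have h8 : (X.card : ℝ) * (1 - p) ^ k ≤ (X.card : ℝ) * Real.exp (-(p * k)) :=
      mul_le_mul_of_nonneg_left h3 (by linarith)
    linarith

/-- the integer points of a cube -/
noncomputable def box (n N : ℕ) : Finset (Fin n → ℤ) := Fintype.piFinset fun _ : Fin n => Finset.Ico (0 : ℤ) N

theorem mem_box {n N : ℕ} {v : Fin n → ℤ} : v ∈ box n N ↔ ∀ i, 0 ≤ v i ∧ v i < N := by
  unfold box
  rw [Fintype.mem_piFinset]
  exact forall_congr' fun i => mem_Ico

theorem card_box (n N : ℕ) : (box n N).card = N ^ n := by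
  unfold box
  rw [Fintype.card_piFinset, prod_const, card_univ, Fintype.card_fin, Int.card_Ico]
  congr 1

theorem translates {n N : ℕ} (hN : 1 ≤ N) (V : Finset (Fin n → ℤ)) (hV : V ⊆ box n N)
    (hV0 : V.Nonempty) : ∃ C : Finset (Fin n → ℤ),
      (C.card : ℝ) ≤ n * Real.log N * ((2 * N) ^ n / V.card) + 1 ∧
      ∀ u ∈ box n N, ∃ c ∈ C, u - c ∈ V := by
  classical
  set T : Finset (Fin n → ℤ) := Fintype.piFinset fun _ : Fin n => Finset.Ico (-(N : ℤ)) N with hT
  have hTcard : T.card = (2 * N) ^ n := by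
    rw [hT, Fintype.card_piFinset, prod_const, card_univ, Fintype.card_fin, Int.card_Ico]
    congr 1
    omega
  have hT0 : T.Nonempty := card_pos.1 (by rw [hTcard]; positivity)
  have hVr : (0 : ℝ) < V.card := by exact_mod_cast card_pos.2 hV0
  have hNr : (1 : ℝ) ≤ N := by exact_mod_cast hN
  have hpow : (0 : ℝ) < (2 * (N : ℝ)) ^ n := by positivity
  have hVle : (V.card : ℝ) ≤ (2 * (N : ℝ)) ^ n := by
    have h1 : V.card ≤ N ^ n := by rw [← card_box]; exact card_le_card hV
    have h2 : (V.card : ℝ) ≤ (N : ℝ) ^ n := by exact_mod_cast h1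
    refine h2.trans (pow_le_pow_left₀ (by linarith) (by linarith) n)
  obtain ⟨C, hC, hCc, hcov⟩ := greedy_cover (box n N) T hT0 (fun u c => u - c ∈ V)
    ((V.card : ℝ) / (2 * N) ^ n) (by positivity) (fun u hu => by
      rw [hTcard]
      push_cast
      rw [div_mul_cancel₀ _ hpow.ne']
      have h1 : V.image (fun v => u - v) ⊆ T.filter fun c => u - c ∈ V := by
        intro c hc
        obtain ⟨v, hv, rfl⟩ := mem_image.1 hc
        refine mem_filter.2 ⟨?_, by rwa [sub_sub_cancel]⟩
        rw [hT, Fintype.mem_piFinset]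
        intro i
        have h2 := mem_box.1 hu i
        have h3 := mem_box.1 (hV hv) i
        rw [mem_Ico, Pi.sub_apply]
        omega
      have h2 := card_le_card h1
      rw [card_image_of_injective _ (fun x y hxy => sub_right_injective hxy)] at h2
      exact_mod_cast h2) (by rw [div_le_one hpow]; exact hVle)
    (by rw [card_box]; exact Nat.one_le_pow _ _ (by omega))
  refine ⟨C, hCc.trans (le_of_eq ?_), hcov⟩
  rw [card_box]
  push_cast
  rw [Real.log_pow]
  field_simp

/-- progressions with many common differences in a box: lower bound for the number of points -/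
theorem disc {n m N : ℕ} (hm : 1 ≤ m) (hN : 2 ≤ N) {s : ℝ} (hs : (s : EReal) ≤ fM n m)
    (V : Finset (Fin n → ℤ)) (hV : V ⊆ box n N) (A : Finset (Fin n → ℤ))
    (hA : ∀ v ∈ V, ∃ a : Fin n → ℤ, ∀ j < m, (fun i => a i + (j : ℤ) * v i) ∈ A) :
    (N : ℝ) ^ s * V.card ≤ m * (n * 2 ^ n * Real.log N + 1) * (N : ℝ) ^ n * A.card := by
  classical
  have hNr : (2 : ℝ) ≤ N := by exact_mod_cast hN
  have hlog : 0 ≤ Real.log N := Real.log_nonneg (by linarith)
  rcases V.eq_empty_or_nonempty with rfl | hV0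
  · rw [card_empty, Nat.cast_zero, mul_zero]
    positivity
  have hVr : (0 : ℝ) < V.card := by exact_mod_cast card_pos.2 hV0
  obtain ⟨C, hC, hcov⟩ := translates (by omega) V hV hV0
  set A' : Finset (Fin n → ℤ) := (A ×ˢ (C ×ˢ range m)).image fun q =>
    fun i => q.1 i + (q.2.2 : ℤ) * q.2.1 i with hA'
  have hA'c : (A'.card : ℝ) ≤ m * C.card * A.card := by
    have h1 : A'.card ≤ (A ×ˢ (C ×ˢ range m)).card := card_image_le
    rw [card_product, card_product, card_range] at h1
    have h2 : (A'.card : ℝ) ≤ A.card * (C.card * m) := by exact_mod_cast h1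
    linarith [mul_comm (A.card : ℝ) (C.card * m), mul_comm (C.card : ℝ) m]
  have hprog : ∀ u : Fin n → ℤ, (∀ i, 0 ≤ u i ∧ u i < N) → ∃ a : Fin n → ℤ, ∀ j < m,
      (fun i => a i + (j : ℤ) * u i) ∈ A' := by
    intro u hu
    obtain ⟨c, hc, hcV⟩ := hcov u (mem_box.2 hu)
    obtain ⟨a, ha⟩ := hA _ hcV
    refine ⟨a, fun j hj => ?_⟩
    refine mem_image.2 ⟨(fun i => a i + (j : ℤ) * (u - c) i, (c, j)),
      mem_product.2 ⟨ha j hj, mem_product.2 ⟨hc, mem_range.2 hj⟩⟩, ?_⟩
    funext i
    simp only [Pi.sub_apply]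
    ring
  have h1 := hs.trans (fM_le hm hN A' hprog)
  have h2 : s ≤ Real.log A'.card / Real.log N := by exact_mod_cast h1
  have hlogN : 0 < Real.log N := Real.log_pos (by linarith)
  have hA'0 : (0 : ℝ) < A'.card := by
    obtain ⟨a, ha⟩ := hprog 0 (fun i => ⟨le_rfl, by simp; omega⟩)
    exact_mod_cast card_pos.2 ⟨_, ha 0 (by omega)⟩
  have h3 : (N : ℝ) ^ s ≤ A'.card := by
    rw [le_div_iff₀ hlogN] at h2
    rw [← Real.log_le_log_iff (Real.rpow_pos_of_pos (by linarith) s) hA'0,
      Real.log_rpow (by linarith)]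
    exact h2
  have hVN : (V.card : ℝ) ≤ (N : ℝ) ^ n := by
    have : V.card ≤ N ^ n := by rw [← card_box]; exact card_le_card hV
    exact_mod_cast this
  calc (N : ℝ) ^ s * V.card ≤ (m * C.card * A.card) * V.card :=
        mul_le_mul_of_nonneg_right (h3.trans hA'c) hVr.le
    _ ≤ (m * (n * Real.log N * ((2 * N) ^ n / V.card) + 1) * A.card) * V.card := by gcongr
    _ = m * (n * Real.log N * (2 * N) ^ n + V.card) * A.card := by field_simp
    _ ≤ m * (n * Real.log N * (2 * N) ^ n + (N : ℝ) ^ n) * A.card := by gcongr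
    _ = m * (n * 2 ^ n * Real.log N + 1) * (N : ℝ) ^ n * A.card := by
        rw [mul_pow]
        ring

end Run7.h605.KD
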