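import Mathlib
import Pool.Agent.Run7.h605.KD.Greedy

/-! # Covering numbers at every scale -/

set_option autoImplicit false

open Finset

namespace Run7.h605.KD

open Pool.Agent.W46.KK Pool.Agent.V11295.ProgAny

/-- the rounded point -/
noncomputable def rd {n : ℕ} (ε : ℝ) (N : ℕ) (r : EuclideanSpace ℝ (Fin n)) : Fin n → ℤ :=
  fun i => min ⌊r i / ε⌋ ((N : ℤ) - 1)

theorem rd_spec {n : ℕ} {ε : ℝ} (hε : 0 < ε) {N : ℕ} (hN : 1 / ε ≤ N) (hN1 : 1 ≤ N)
    {r : EuclideanSpace ℝ (Fin n)} (hr : r ∈ cube n) (i : Fin n) :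
    (0 ≤ rd ε N r i ∧ rd ε N r i < N) ∧ (rd ε N r i : ℝ) ≤ r i / ε ∧
      r i / ε ≤ (rd ε N r i : ℝ) + 1 := by
  have hri := hr i
  have h0 : 0 ≤ r i / ε := div_nonneg hri.1 hε.le
  have h1 : r i / ε ≤ N := le_trans (div_le_div_of_nonneg_right hri.2 hε.le) hN
  have h2 : 0 ≤ ⌊r i / ε⌋ := Int.floor_nonneg.2 h0
  have h3 := Int.floor_le (r i / ε)
  have h4 := (Int.lt_floor_add_one (r i / ε)).le
  unfold rd
  refine ⟨⟨?_, ?_⟩, ?_, ?_⟩
  · exact le_min h2 (by omega)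
  · have := min_le_right ⌊r i / ε⌋ ((N : ℤ) - 1)
    omega
  · refine le_trans ?_ h3
    exact_mod_cast min_le_left _ _
  · rcases le_total ⌊r i / ε⌋ ((N : ℤ) - 1) with h | h
    · rw [min_eq_left h]
      exact h4
    · rw [min_eq_right h]
      push_cast
      linarith

theorem scale {n m : ℕ} (hm : 1 ≤ m) {s : ℝ} (hs0 : 0 ≤ s) (hs : (s : EReal) ≤ fM n m)
    {R B : Set (EuclideanSpace ℝ (Fin n))} (hR : R ⊆ cube n) (hB : Bornology.IsBounded B)
    (h : ∀ r ∈ R, ∃ a : EuclideanSpace ℝ (Fin n), ∀ j < m, a + (j : ℝ) • r ∈ B) {ε : ℝ}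
    (hε : 0 < ε) (hε2 : ε ≤ 1 / 2) :
    (coverNum R ε : ℝ) * (1 / ε) ^ s ≤
      ((4 * (n + 1)) ^ n * (m * (n * 2 ^ n + 1) * 2 * 2 ^ n) * (3 ^ n * m ^ n)) *
        ((1 / ε) ^ n * Real.log (1 / ε) * coverNum B ε) := by
  classical
  set N : ℕ := ⌈1 / ε⌉₊ with hN
  have h2ε : (2 : ℝ) ≤ 1 / ε := by
    rw [le_div_iff₀ hε]
    linarith
  have hN1 : 1 / ε ≤ N := Nat.le_ceil _
  have hNr : (2 : ℝ) ≤ N := h2ε.trans hN1
  have hN2 : 2 ≤ N := by exact_mod_cast hNr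
  have hN3 : (N : ℝ) ≤ 2 * (1 / ε) := by
    have := (Nat.ceil_lt_add_one (show 0 ≤ 1 / ε by positivity)).le
    linarith
  -- the rounded differences
  set V : Finset (Fin n → ℤ) := (box n N).filter fun v => ∃ r ∈ R, rd ε N r = v with hV
  have hex : ∀ v : Fin n → ℤ, ∃ (r a : EuclideanSpace ℝ (Fin n)), v ∈ V → (r ∈ R ∧ rd ε N r = v ∧
      ∀ j < m, a + (j : ℝ) • r ∈ B) := by
    intro v
    by_cases hv : v ∈ V
    · obtain ⟨r, hr, hrv⟩ := (mem_filter.1 hv).2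
      obtain ⟨a, ha⟩ := h r hr
      exact ⟨r, a, fun _ => ⟨hr, hrv, ha⟩⟩
    · exact ⟨0, 0, fun h' => absurd h' hv⟩
  choose r a hra using hex
  -- the covering of `R`
  have hcovR : coverNum R ε ≤ V.card * (4 * (n + 1)) ^ n := by
    refine (coverNum_le hε (V.image fun v => (WithLp.toLp 2 fun i => ε * (v i : ℝ) :
      EuclideanSpace ℝ (Fin n))) ?_).trans (Nat.mul_le_mul_right _ card_image_le)
    intro x hx
    refine ⟨_, mem_image.2 ⟨rd ε N x, mem_filter.2 ⟨mem_box.2 fun i =>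
      (rd_spec hε hN1 (by omega) (hR hx) i).1, x, hx, rfl⟩, rfl⟩, fun i => ?_⟩
    have h1 := (rd_spec hε hN1 (by omega) (hR hx) i).2
    have h2 := h1.1
    have h3 := h1.2
    rw [le_div_iff₀ hε] at h2
    rw [div_le_iff₀ hε] at h3
    change |x i - ε * (rd ε N x i : ℝ)| < 2 * ε
    rw [abs_lt]
    constructor <;> nlinarith
  -- the points
  obtain ⟨U, hU1, hU2⟩ := exists_cover hB hε
  have hP := card_cells (d := n) hε (fun i => (WithLp.toLp 2) ⁻¹' (U i))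
    (fun i x hx y hy l => by
      have h2 := hU1 i _ hx _ hy
      refine le_trans ?_ h2
      rw [EuclideanSpace.dist_eq]
      have h3 : dist (x l) (y l) ^ 2 ≤ ∑ i, dist (x i) (y i) ^ 2 :=
        Finset.single_le_sum (f := fun i => dist (x i) (y i) ^ 2) (fun _ _ => sq_nonneg _)
          (Finset.mem_univ l)
      rw [← Real.dist_eq]
      exact Real.le_sqrt_of_sq_le h3)
    (V ×ˢ range m) (fun q i => a q.1 i + (q.2 : ℝ) * r q.1 i) (fun q hq => by
      have h2 := (hra q.1 (mem_product.1 hq).1).2.2 q.2 (mem_range.1 (mem_product.1 hq).2)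
      obtain ⟨i, hi⟩ := Set.mem_iUnion.1 (hU2 h2)
      refine ⟨i, ?_⟩
      rw [Set.mem_preimage]
      convert hi using 1
      ext l
      simp)
  rw [Fintype.card_fin] at hP
  set P := (V ×ˢ range m).image fun q : (Fin n → ℤ) × ℕ =>
    fl ε (fun i => a q.1 i + (q.2 : ℝ) * r q.1 i) with hPdef
  set A : Finset (Fin n → ℤ) := (P ×ˢ (Finset.univ : Finset (Fin n → Fin m))).image fun q =>
    fun i => q.1 i - ((q.2 i : ℕ) : ℤ) with hA
  have hAc : A.card ≤ 3 ^ n * coverNum B ε * m ^ n := by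
    refine card_image_le.trans ?_
    rw [card_product, card_univ, Fintype.card_pi, prod_const, card_univ, Fintype.card_fin,
      Fintype.card_fin]
    exact Nat.mul_le_mul_right _ hP
  have hAp : ∀ v ∈ V, ∃ b : Fin n → ℤ, ∀ j < m, (fun i => b i + (j : ℤ) * v i) ∈ A := by
    intro v hv
    obtain ⟨hr1, hr2, -⟩ := hra v hv
    refine ⟨fun i => ⌊a v i / ε⌋, fun j hj => ?_⟩
    have hdiff : ∀ i, 0 ≤ ⌊(a v i + (j : ℝ) * r v i) / ε⌋ - (⌊a v i / ε⌋ + (j : ℤ) * v i) ∧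
        ⌊(a v i + (j : ℝ) * r v i) / ε⌋ - (⌊a v i / ε⌋ + (j : ℤ) * v i) < m := by
      intro i
      have h1 := (rd_spec hε hN1 (by omega) (hR hr1) i).2
      rw [hr2] at h1
      have h2 := Int.floor_le (a v i / ε)
      have h3 := Int.lt_floor_add_one (a v i / ε)
      have hj0 : (0 : ℝ) ≤ j := Nat.cast_nonneg j
      have e : (a v i + (j : ℝ) * r v i) / ε = a v i / ε + (j : ℝ) * (r v i / ε) := by ring
      have h4 : (⌊a v i / ε⌋ + (j : ℤ) * v i : ℤ) ≤ ⌊(a v i + (j : ℝ) * r v i) / ε⌋ := by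
        rw [Int.le_floor, e]
        push_cast
        have := mul_le_mul_of_nonneg_left h1.1 hj0
        linarith
      have h5 : ⌊(a v i + (j : ℝ) * r v i) / ε⌋ < (⌊a v i / ε⌋ + (j : ℤ) * v i : ℤ) + (j + 1) := by
        rw [Int.floor_lt, e]
        push_cast
        have := mul_le_mul_of_nonneg_left h1.2 hj0
        nlinarith
      constructor <;> omega
    refine mem_image.2 ⟨(fl ε (fun i => a v i + (j : ℝ) * r v i), fun i =>
      ⟨(⌊(a v i + (j : ℝ) * r v i) / ε⌋ - (⌊a v i / ε⌋ + (j : ℤ) * v i)).toNat, ?_⟩),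
      mem_product.2 ⟨mem_image.2 ⟨(v, j), mem_product.2 ⟨hv, mem_range.2 hj⟩, rfl⟩, mem_univ _⟩, ?_⟩
    · have := hdiff i
      omega
    · funext i
      have := hdiff i
      simp only [fl]
      rw [Int.toNat_of_nonneg this.1]
      ring
  have key := disc hm hN2 hs V (filter_subset _ _) A hAp
  -- the end
  set K := (coverNum B ε : ℝ) with hK
  have hK0 : 0 ≤ K := Nat.cast_nonneg _
  set x := 1 / ε with hx
  have hx0 : 0 < x := by linarith
  have hlogx : Real.log 2 ≤ Real.log x := Real.log_le_log (by norm_num) h2ε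
  have hlog2 : (1 : ℝ) / 2 ≤ Real.log 2 := by linarith [Real.log_two_gt_d9]
  have hlogx0 : 0 < Real.log x := by linarith
  have h1 : x ^ s ≤ (N : ℝ) ^ s := Real.rpow_le_rpow hx0.le hN1 hs0
  have h2 : (N : ℝ) ^ n ≤ 2 ^ n * x ^ n := by
    rw [← mul_pow]
    exact pow_le_pow_left₀ (by linarith) hN3 n
  have h3 : Real.log N ≤ 2 * Real.log x := by
    have : Real.log N ≤ Real.log (2 * x) := Real.log_le_log (by linarith) hN3
    rw [Real.log_mul (by norm_num) (by linarith)] at this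
    linarith
  have h4 : (n * 2 ^ n * Real.log N + 1 : ℝ) ≤ (n * 2 ^ n + 1) * 2 * Real.log x := by
    have h5 : (n * 2 ^ n : ℝ) * Real.log N ≤ (n * 2 ^ n : ℝ) * (2 * Real.log x) :=
      mul_le_mul_of_nonneg_left h3 (by positivity)
    linarith
  have h5 : (A.card : ℝ) ≤ 3 ^ n * K * m ^ n := by
    rw [hK]
    exact_mod_cast hAc
  have h6 : (coverNum R ε : ℝ) ≤ V.card * (4 * (n + 1)) ^ n := by exact_mod_cast hcovR
  have hlogN0 : 0 ≤ Real.log N := Real.log_nonneg (by linarith)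
  calc (coverNum R ε : ℝ) * x ^ s ≤ (V.card * (4 * (n + 1)) ^ n) * (N : ℝ) ^ s := by gcongr
    _ = (4 * (n + 1)) ^ n * ((N : ℝ) ^ s * V.card) := by ring
    _ ≤ (4 * (n + 1)) ^ n * (m * (n * 2 ^ n * Real.log N + 1) * (N : ℝ) ^ n * A.card) :=
        mul_le_mul_of_nonneg_left key (by positivity)
    _ ≤ (4 * (n + 1)) ^ n * (m * ((n * 2 ^ n + 1) * 2 * Real.log x) * (2 ^ n * x ^ n) *
        (3 ^ n * K * m ^ n)) := by gcongr
    _ = _ := by ring

end Run7.h605.KD
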