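import Mathlib
import Pool.Agent.Run7.h605.KD.Scale
import Pool.Agent.Run7.h605.AKD.Szem

/-! # Parts of progressions: Szemerédi's theorem -/

set_option autoImplicit false

open Finset Filter Topology

namespace Run7.h605.KD

open Pool.Agent.W46.KK Pool.Agent.V11295.ProgAny

/-- for every `r ∈ R` the set `B` contains at least `δ k` terms of a `k`-term progression with
common difference `r` -/
def HasPart {n : ℕ} (k : ℕ) (δ : ℝ) (R B : Set (EuclideanSpace ℝ (Fin n))) : Prop :=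
  ∀ r ∈ R, ∃ a : EuclideanSpace ℝ (Fin n), ∃ J : Finset ℕ, J ⊆ range k ∧
    δ * k ≤ (J.card : ℝ) ∧ ∀ j ∈ J, a + (j : ℝ) • r ∈ B

theorem split (m : ℕ) {δ : ℝ} (hδ : 0 < δ) : ∃ K : ℕ, ∀ k : ℕ, K ≤ k → ∀ (n : ℕ)
    (R B : Set (EuclideanSpace ℝ (Fin n))), HasPart k δ R B → ∀ r ∈ R, ∃ j ∈ Finset.Icc 1 k,
      ∃ a : EuclideanSpace ℝ (Fin n), ∀ i < m, a + ((i * j : ℕ) : ℝ) • r ∈ B := by
  obtain ⟨K, hK⟩ := AKD.szem (m + 1) δ hδ
  refine ⟨K, fun k hk n R B h r hr => ?_⟩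
  obtain ⟨a, J, hJ, hJc, hJB⟩ := h r hr
  obtain ⟨u, j, hj, huj⟩ := hK k hk J hJ hJc
  have h1 := mem_range.1 (hJ (huj 1 (by omega)))
  refine ⟨j, mem_Icc.2 ⟨hj, by omega⟩, a + (u : ℝ) • r, fun i hi => ?_⟩
  have h2 := hJB _ (huj i (by omega))
  have e : a + (u : ℝ) • r + ((i * j : ℕ) : ℝ) • r = a + ((u + i * j : ℕ) : ℝ) • r := by
    push_cast
    rw [add_smul, add_assoc]
  rw [e]
  exact h2

theorem coverNum_biUnion {n : ℕ} (J : Finset ℕ) (S : ℕ → Set (EuclideanSpace ℝ (Fin n)))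
    (R : Set (EuclideanSpace ℝ (Fin n))) (h1 : ∀ j ∈ J, S j ⊆ R) (h2 : ∀ r ∈ R, ∃ j ∈ J, r ∈ S j)
    (ε : ℝ) : coverNum R ε ≤ ∑ j ∈ J, coverNum (S j) ε := by
  classical
  by_cases hne : {N | ∃ U : Fin N → Set (EuclideanSpace ℝ (Fin n)),
    (∀ i, ∀ x ∈ U i, ∀ y ∈ U i, dist x y ≤ ε) ∧ R ⊆ ⋃ i, U i}.Nonempty
  · have h3 : ∀ j ∈ J, ∃ U : Fin (coverNum (S j) ε) → Set (EuclideanSpace ℝ (Fin n)),
        (∀ i, ∀ x ∈ U i, ∀ y ∈ U i, dist x y ≤ ε) ∧ S j ⊆ ⋃ i, U i := by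
      intro j hj
      obtain ⟨N, U, hU1, hU2⟩ := hne
      have h6 : {N | ∃ U : Fin N → Set (EuclideanSpace ℝ (Fin n)),
        (∀ i, ∀ x ∈ U i, ∀ y ∈ U i, dist x y ≤ ε) ∧ S j ⊆ ⋃ i, U i}.Nonempty :=
        ⟨N, U, hU1, (h1 j hj).trans hU2⟩
      exact Nat.sInf_mem h6
    choose U hU1 hU2 using fun j : J => h3 j j.2
    have h4 := coverNum_le_card (B := R) (δ := ε) (ι := Σ j : J, Fin (coverNum (S j) ε))
      (fun q => U q.1 q.2) (fun q => hU1 q.1 q.2) (by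
        intro r hr
        obtain ⟨j, hj, hrj⟩ := h2 r hr
        have h5 := hU2 (Subtype.mk j hj) hrj
        obtain ⟨i, hi⟩ := Set.mem_iUnion.1 h5
        exact Set.mem_iUnion.2 ⟨⟨Subtype.mk j hj, i⟩, hi⟩)
    refine h4.trans (le_of_eq ?_)
    rw [Fintype.card_sigma]
    simp only [Fintype.card_fin]
    exact Finset.sum_coe_sort J fun j => coverNum (S j) ε
  · rw [Set.not_nonempty_iff_eq_empty] at hne
    have : coverNum R ε = 0 := by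
      unfold coverNum
      rw [hne, Nat.sInf_empty]
    rw [this]
    exact Nat.zero_le _

/-- the set `(1 / j) B` -/
def shrink {n : ℕ} (j : ℕ) (B : Set (EuclideanSpace ℝ (Fin n))) :
    Set (EuclideanSpace ℝ (Fin n)) := {x | (j : ℝ) • x ∈ B}

theorem shrink_bounded {n j : ℕ} (hj : 1 ≤ j) {B : Set (EuclideanSpace ℝ (Fin n))}
    (hB : Bornology.IsBounded B) : Bornology.IsBounded (shrink j B) := by
  have hjr : (1 : ℝ) ≤ j := by exact_mod_cast hj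
  rw [isBounded_iff_forall_norm_le] at hB ⊢
  obtain ⟨C, hC⟩ := hB
  refine ⟨C, fun x hx => ?_⟩
  have h1 := hC _ hx
  rw [norm_smul, Real.norm_of_nonneg (by linarith)] at h1
  nlinarith [norm_nonneg x]

theorem shrink_cover {n j : ℕ} (hj : 1 ≤ j) {B : Set (EuclideanSpace ℝ (Fin n))}
    (hB : Bornology.IsBounded B) {ε : ℝ} (hε : 0 < ε) : coverNum (shrink j B) ε ≤ coverNum B ε := by
  have hjr : (1 : ℝ) ≤ j := by exact_mod_cast hj
  obtain ⟨U, hU1, hU2⟩ := exists_cover hB hε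
  have h := coverNum_le_card (B := shrink j B) (δ := ε) (ι := Fin (coverNum B ε))
    (fun i => {x | (j : ℝ) • x ∈ U i}) (fun i x hx y hy => by
      have h1 := hU1 i _ hx _ hy
      rw [dist_smul₀, Real.norm_of_nonneg (by linarith)] at h1
      nlinarith [dist_nonneg (x := x) (y := y)]) (by
      intro x hx
      obtain ⟨i, hi⟩ := Set.mem_iUnion.1 (hU2 hx)
      exact Set.mem_iUnion.2 ⟨i, hi⟩)
  rwa [Fintype.card_fin] at h

/-- the common differences `r` such that `B` contains an `m`-term progression with common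
difference `j r` -/
def pieceR {n : ℕ} (m : ℕ) (R B : Set (EuclideanSpace ℝ (Fin n))) (j : ℕ) :
    Set (EuclideanSpace ℝ (Fin n)) :=
  {r | r ∈ R ∧ ∃ a : EuclideanSpace ℝ (Fin n), ∀ i < m, a + ((i * j : ℕ) : ℝ) • r ∈ B}

theorem piece_prog {n m j : ℕ} (hj : 1 ≤ j) {R B : Set (EuclideanSpace ℝ (Fin n))} :
    ∀ r ∈ pieceR m R B j, ∃ a : EuclideanSpace ℝ (Fin n), ∀ i < m,
      a + (i : ℝ) • r ∈ shrink j B := by
  rintro r ⟨-, a, ha⟩
  have hj0 : (j : ℝ) ≠ 0 := by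
    have : (0 : ℝ) < j := by exact_mod_cast hj
    exact this.ne'
  refine ⟨(j : ℝ)⁻¹ • a, fun i hi => ?_⟩
  change (j : ℝ) • ((j : ℝ)⁻¹ • a + (i : ℝ) • r) ∈ B
  have e : (j : ℝ) • ((j : ℝ)⁻¹ • a + (i : ℝ) • r) = a + ((i * j : ℕ) : ℝ) • r := by
    rw [smul_add, smul_smul, smul_smul, mul_inv_cancel₀ hj0, one_smul]
    push_cast
    rw [mul_comm]
  rw [e]
  exact ha i hi

theorem fM_mono {n m m' : ℕ} (h : m ≤ m') : fM n m ≤ fM n m' := by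
  unfold fM
  refine le_iInf fun B => le_iInf fun hB => le_iInf fun hP => ?_
  refine iInf_le_of_le B (iInf_le_of_le hB (iInf_le_of_le ?_ le_rfl))
  intro r hr
  obtain ⟨a, ha⟩ := hP r hr
  exact ⟨a, fun j hj => ha j (lt_of_lt_of_le hj h)⟩

theorem all_scales (m : ℕ) {δ : ℝ} (hδ : 0 < δ) : ∃ K : ℕ, ∀ k : ℕ, K ≤ k → ∀ n : ℕ, ∃ C : ℝ,
    0 < C ∧ ∀ s : ℝ, 0 ≤ s → (s : EReal) ≤ fM n m → ∀ R B : Set (EuclideanSpace ℝ (Fin n)),
      R ⊆ cube n → Bornology.IsBounded B → HasPart k δ R B → ∀ ε : ℝ, 0 < ε → ε ≤ 1 / 2 →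
        (coverNum R ε : ℝ) * (1 / ε) ^ s ≤
          C * ((1 / ε) ^ n * Real.log (1 / ε) * coverNum B ε) := by
  classical
  obtain ⟨K, hK⟩ := split (m + 1) hδ
  refine ⟨K, fun k hk n => ?_⟩
  set C₀ : ℝ := ((4 * (n + 1)) ^ n * (((m + 1 : ℕ) : ℝ) * (n * 2 ^ n + 1) * 2 * 2 ^ n) *
    (3 ^ n * ((m + 1 : ℕ) : ℝ) ^ n)) with hC₀
  have hC₀0 : 0 < C₀ := by positivity
  refine ⟨(k + 1) * C₀, by positivity, fun s hs0 hs R B hR hB hP ε hε hε2 => ?_⟩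
  have hs' : (s : EReal) ≤ fM n (m + 1) := hs.trans (fM_mono (Nat.le_succ m))
  have h1 := coverNum_biUnion (Icc 1 k) (fun j => pieceR (m + 1) R B j) R
    (fun j _ r hr => hr.1) (fun r hr => by
      obtain ⟨j, hj, a, ha⟩ := hK k hk n R B hP r hr
      exact ⟨j, hj, hr, a, ha⟩) ε
  have h2 : ∀ j ∈ Icc 1 k, (coverNum (pieceR (m + 1) R B j) ε : ℝ) * (1 / ε) ^ s ≤
      C₀ * ((1 / ε) ^ n * Real.log (1 / ε) * coverNum B ε) := by
    intro j hj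
    have hj1 := (mem_Icc.1 hj).1
    refine (scale (by omega : 1 ≤ m + 1) hs0 hs' (fun r hr => hR hr.1) (shrink_bounded hj1 hB)
      (piece_prog hj1) hε hε2).trans ?_
    have h3 : (coverNum (shrink j B) ε : ℝ) ≤ coverNum B ε := by
      exact_mod_cast shrink_cover hj1 hB hε
    have h4 : 0 ≤ Real.log (1 / ε) := Real.log_nonneg (by rw [le_div_iff₀ hε]; linarith)
    refine mul_le_mul_of_nonneg_left ?_ hC₀0.le
    exact mul_le_mul_of_nonneg_left h3 (by positivity)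
  have h4 : 0 ≤ Real.log (1 / ε) := Real.log_nonneg (by rw [le_div_iff₀ hε]; linarith)
  have h5 : 0 ≤ C₀ * ((1 / ε) ^ n * Real.log (1 / ε) * coverNum B ε) := by positivity
  have h6 : (0 : ℝ) ≤ (1 / ε) ^ s := Real.rpow_nonneg (by positivity) s
  calc (coverNum R ε : ℝ) * (1 / ε) ^ s ≤
        ((∑ j ∈ Icc 1 k, coverNum (pieceR (m + 1) R B j) ε : ℕ) : ℝ) * (1 / ε) ^ s := by
          refine mul_le_mul_of_nonneg_right ?_ h6
          exact_mod_cast h1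
    _ = ∑ j ∈ Icc 1 k, (coverNum (pieceR (m + 1) R B j) ε : ℝ) * (1 / ε) ^ s := by
        push_cast
        rw [sum_mul]
    _ ≤ ∑ _j ∈ Icc 1 k, C₀ * ((1 / ε) ^ n * Real.log (1 / ε) * coverNum B ε) := sum_le_sum h2
    _ = k * (C₀ * ((1 / ε) ^ n * Real.log (1 / ε) * coverNum B ε)) := by
        rw [sum_const, Nat.card_Icc, nsmul_eq_mul]
        simp
    _ ≤ (k + 1) * (C₀ * ((1 / ε) ^ n * Real.log (1 / ε) * coverNum B ε)) := by nlinarith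
    _ = _ := by ring

theorem exponent {c : ℝ} (h : SD c) (hc : 0 < c) {δ : ℝ} (hδ : 0 < δ) : ∃ K : ℕ, ∀ k : ℕ, K ≤ k →
    ∀ n : ℕ, ∃ C : ℝ, 0 < C ∧ ∀ R B : Set (EuclideanSpace ℝ (Fin n)), Bornology.IsBounded B →
      HasPart k δ R B → ∀ ε : ℝ, 0 < ε → (coverNum R ε : ℝ) ≤ C * (coverNum B ε : ℝ) ^ c := by
  classical
  obtain ⟨m, hm, hmain⟩ := cover_any h hc
  obtain ⟨K, hK⟩ := split m hδ
  refine ⟨K, fun k hk n => ?_⟩
  obtain ⟨C₀, hC₀, hn⟩ := hmain n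
  refine ⟨(k + 1) * C₀, by positivity, fun R B hB hP ε hε => ?_⟩
  have h1 := coverNum_biUnion (Icc 1 k) (fun j => pieceR m R B j) R
    (fun j _ r hr => hr.1) (fun r hr => by
      obtain ⟨j, hj, a, ha⟩ := hK k hk n R B hP r hr
      exact ⟨j, hj, hr, a, ha⟩) ε
  have h2 : ∀ j ∈ Icc 1 k, (coverNum (pieceR m R B j) ε : ℝ) ≤ C₀ * (coverNum B ε : ℝ) ^ c := by
    intro j hj
    have hj1 := (mem_Icc.1 hj).1
    refine (hn _ _ (shrink_bounded hj1 hB) (piece_prog hj1) ε hε).trans ?_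
    have h3 : (coverNum (shrink j B) ε : ℝ) ≤ coverNum B ε := by
      exact_mod_cast shrink_cover hj1 hB hε
    exact mul_le_mul_of_nonneg_left (Real.rpow_le_rpow (Nat.cast_nonneg _) h3 hc.le) hC₀.le
  have h5 : 0 ≤ C₀ * (coverNum B ε : ℝ) ^ c := by positivity
  calc (coverNum R ε : ℝ) ≤ ((∑ j ∈ Icc 1 k, coverNum (pieceR m R B j) ε : ℕ) : ℝ) := by
        exact_mod_cast h1
    _ = ∑ j ∈ Icc 1 k, (coverNum (pieceR m R B j) ε : ℝ) := by push_cast; rfl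
    _ ≤ ∑ _j ∈ Icc 1 k, C₀ * (coverNum B ε : ℝ) ^ c := sum_le_sum h2
    _ = k * (C₀ * (coverNum B ε : ℝ) ^ c) := by
        rw [sum_const, Nat.card_Icc, nsmul_eq_mul]
        simp
    _ ≤ (k + 1) * (C₀ * (coverNum B ε : ℝ) ^ c) := by nlinarith
    _ = _ := by ring

end Run7.h605.KD
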