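import Mathlib
import Pool.Agent.Run7.h605.KD.Split

/-! # Minkowski dimensions -/

set_option autoImplicit false

open Finset Filter Topology

namespace Run7.h605.KD

open Pool.Agent.W46.KK hiding lowerMinkowski
open Pool.Agent.V11295.ProgAny

theorem loglog_le {η y : ℝ} (hη : 0 < η) (hy : 0 < y) :
    Real.log y ≤ Real.log (2 / η) + η / 2 * y := by
  have h1 : Real.log (η / 2 * y) ≤ η / 2 * y - 1 := Real.log_le_sub_one_of_pos (by positivity)
  have h2 : Real.log y = Real.log (2 / η) + Real.log (η / 2 * y) := by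
    rw [← Real.log_mul (by positivity) (by positivity)]
    congr 1
    field_simp
  linarith

theorem one_le_cover {n : ℕ} {R : Set (EuclideanSpace ℝ (Fin n))} (hR : Bornology.IsBounded R)
    (hne : R.Nonempty) {ε : ℝ} (hε : 0 < ε) : 1 ≤ coverNum R ε := by
  obtain ⟨U, hU1, hU2⟩ := exists_cover hR hε
  obtain ⟨r, hr⟩ := hne
  obtain ⟨i, -⟩ := Set.mem_iUnion.1 (hU2 hr)
  have := i.2
  omega

/-- comparison of the ratios -/
theorem ratio_ge {n : ℕ} {C s : ℝ} (hC : 0 < C) {R B : Set (EuclideanSpace ℝ (Fin n))}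
    (hR : Bornology.IsBounded R) (hne : R.Nonempty)
    (h : ∀ ε : ℝ, 0 < ε → ε ≤ 1 / 2 → (coverNum R ε : ℝ) * (1 / ε) ^ s ≤
      C * ((1 / ε) ^ n * Real.log (1 / ε) * coverNum B ε)) {η : ℝ} (hη : 0 < η) :
    ∀ᶠ ε : ℝ in 𝓝[>] (0 : ℝ), ratio R ε + s - n - η ≤ ratio B ε := by
  have hsm : ∀ᶠ ε : ℝ in 𝓝[>] (0 : ℝ), 0 < ε ∧ ε < 1 / 2 := Ioo_mem_nhdsGT (by norm_num)
  filter_upwards [hsm, eventually_log (2 * (|Real.log C| + |Real.log (2 / η)|) / η)] with ε h1 h2
  have hε := h1.1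
  have hx2 : (2 : ℝ) < 1 / ε := by
    rw [lt_div_iff₀ hε]
    linarith [h1.2]
  set x := 1 / ε with hx
  have hx0 : 0 < x := by linarith
  have hL : 0 < Real.log x := Real.log_pos (by linarith)
  have h3 := h ε hε h1.2.le
  have hR1 : (1 : ℝ) ≤ coverNum R ε := by exact_mod_cast one_le_cover hR hne hε
  have hB0 : coverNum B ε ≠ 0 := by
    intro h0
    rw [h0, Nat.cast_zero, mul_zero, mul_zero] at h3
    have : 0 < (coverNum R ε : ℝ) * x ^ s := mul_pos (by linarith) (Real.rpow_pos_of_pos hx0 s)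
    linarith
  have hBr : (0 : ℝ) < coverNum B ε := by exact_mod_cast Nat.pos_of_ne_zero hB0
  have h4 := Real.log_le_log (mul_pos (by linarith) (Real.rpow_pos_of_pos hx0 s)) h3
  rw [Real.log_mul (by linarith) (Real.rpow_pos_of_pos hx0 s).ne', Real.log_rpow hx0,
    Real.log_mul hC.ne' (by positivity), Real.log_mul (by positivity) hBr.ne',
    Real.log_mul (by positivity) hL.ne', Real.log_pow] at h4
  have h5 := loglog_le hη hL
  have h6 := le_abs_self (Real.log C)
  have h7 := le_abs_self (Real.log (2 / η))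
  rw [div_lt_iff₀ hη] at h2
  unfold ratio
  rw [← hx]
  have e1 : Real.log (coverNum R ε) / Real.log x + s - n - η =
      (Real.log (coverNum R ε) + (s - n - η) * Real.log x) / Real.log x := by
    field_simp
    ring
  rw [e1, div_le_div_iff_of_pos_right hL]
  nlinarith

/-- lower Minkowski dimension -/
theorem lower_dim {n : ℕ} {C s t : ℝ} (hC : 0 < C) {R B : Set (EuclideanSpace ℝ (Fin n))}
    (hR : Bornology.IsBounded R) (hne : R.Nonempty)
    (h : ∀ ε : ℝ, 0 < ε → ε ≤ 1 / 2 → (coverNum R ε : ℝ) * (1 / ε) ^ s ≤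
      C * ((1 / ε) ^ n * Real.log (1 / ε) * coverNum B ε))
    (ht : (t : EReal) ≤ lowerMinkowski R) : ((s + t - n : ℝ) : EReal) ≤ lowerMinkowski B := by
  by_contra hcon
  push Not at hcon
  obtain ⟨y, h1, h2⟩ := EReal.lt_iff_exists_real_btwn.mp hcon
  have hy : y < s + t - n := by exact_mod_cast h2
  refine absurd h1 (not_lt.2 ?_)
  set η := (s + t - n - y) / 2 with hη
  have hη0 : 0 < η := by rw [hη]; linarith
  have h3 : ∀ᶠ ε : ℝ in 𝓝[>] (0 : ℝ), ((t - η : ℝ) : EReal) <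
      ((Real.log (coverNum R ε) / Real.log (1 / ε) : ℝ) : EReal) := by
    have h4 : ((t - η : ℝ) : EReal) < lowerMinkowski R :=
      lt_of_lt_of_le (by exact_mod_cast (by linarith : t - η < t)) ht
    exact eventually_lt_of_lt_liminf h4 (by isBoundedDefault)
  refine le_liminf_of_le (by isBoundedDefault) ?_
  filter_upwards [h3, ratio_ge hC hR hne h hη0] with ε h5 h6
  rw [EReal.coe_le_coe_iff]
  have h7 : t - η < ratio R ε := by exact_mod_cast h5
  change y ≤ ratio B ε
  linarith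

/-- upper Minkowski dimension -/
theorem upper_dim {n : ℕ} {C s t : ℝ} (hC : 0 < C) {R B : Set (EuclideanSpace ℝ (Fin n))}
    (hR : Bornology.IsBounded R) (hne : R.Nonempty)
    (h : ∀ ε : ℝ, 0 < ε → ε ≤ 1 / 2 → (coverNum R ε : ℝ) * (1 / ε) ^ s ≤
      C * ((1 / ε) ^ n * Real.log (1 / ε) * coverNum B ε))
    (ht : (t : EReal) ≤ upperMinkowski R) : ((s + t - n : ℝ) : EReal) ≤ upperMinkowski B := by
  by_contra hcon
  push Not at hcon
  obtain ⟨y, h1, h2⟩ := EReal.lt_iff_exists_real_btwn.mp hcon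
  have hy : y < s + t - n := by exact_mod_cast h2
  refine absurd h1 (not_lt.2 ?_)
  set η := (s + t - n - y) / 2 with hη
  have hη0 : 0 < η := by rw [hη]; linarith
  have h3 : ∃ᶠ ε : ℝ in 𝓝[>] (0 : ℝ), ((t - η : ℝ) : EReal) <
      ((Real.log (coverNum R ε) / Real.log (1 / ε) : ℝ) : EReal) := by
    have h4 : ((t - η : ℝ) : EReal) < upperMinkowski R :=
      lt_of_lt_of_le (by exact_mod_cast (by linarith : t - η < t)) ht
    exact frequently_lt_of_lt_limsup (by isBoundedDefault) h4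
  refine le_limsup_of_frequently_le ?_ (by isBoundedDefault)
  refine (h3.and_eventually (ratio_ge hC hR hne h hη0)).mono ?_
  rintro ε ⟨h5, h6⟩
  rw [EReal.coe_le_coe_iff]
  have h7 : t - η < ratio R ε := by exact_mod_cast h5
  change y ≤ ratio B ε
  linarith

theorem zero_le_lower {n : ℕ} (B : Set (EuclideanSpace ℝ (Fin n))) : 0 ≤ lowerMinkowski B := by
  refine le_liminf_of_le (by isBoundedDefault) ?_
  filter_upwards [eventually_small] with δ hδ
  exact EReal.coe_nonneg.mpr (ratio_nonneg B hδ.1 hδ.2)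

/-- `B` with parts of progressions for all differences in `[0,1]^n`: lower Minkowski dimension -/
theorem fM_le_lower {m : ℕ} {δ : ℝ} (hδ : 0 < δ) : ∃ K : ℕ, ∀ k : ℕ, K ≤ k → ∀ n : ℕ,
    ∀ B : Set (EuclideanSpace ℝ (Fin n)), Bornology.IsBounded B → HasPart k δ (cube n) B →
      fM n m ≤ lowerMinkowski B := by
  obtain ⟨K, hK⟩ := all_scales m hδ
  refine ⟨K, fun k hk n B hB hP => ?_⟩
  obtain ⟨C, hC, hmain⟩ := hK k hk n
  refine le_of_forall_lt fun z hz => ?_
  obtain ⟨y, h1, h2⟩ := EReal.lt_iff_exists_real_btwn.mp hz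
  refine lt_of_lt_of_le h1 ?_
  rcases le_total y 0 with hy | hy
  · exact le_trans (by exact_mod_cast hy) (zero_le_lower B)
  · have hne : (cube n).Nonempty := ⟨0, fun i => by simp⟩
    have h3 := lower_dim (t := n) hC (cube_bounded n) hne
      (fun ε hε hε2 => hmain y hy h2.le (cube n) B subset_rfl hB hP ε hε hε2) (cube_dim n)
    rwa [add_sub_cancel_right] at h3

/-- the infimum of the lower Minkowski dimensions, for parts of progressions -/
noncomputable def fLower (n k : ℕ) (δ : ℝ) : EReal :=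
  ⨅ (B : Set (EuclideanSpace ℝ (Fin n))) (_ : Bornology.IsBounded B)
    (_ : HasPart k δ (cube n) B), lowerMinkowski B

/-- the infimum of the upper Minkowski dimensions, for parts of progressions -/
noncomputable def fUpper (n k : ℕ) (δ : ℝ) : EReal :=
  ⨅ (B : Set (EuclideanSpace ℝ (Fin n))) (_ : Bornology.IsBounded B)
    (_ : HasPart k δ (cube n) B), upperMinkowski B

theorem fM_le_fLower (m : ℕ) {δ : ℝ} (hδ : 0 < δ) : ∃ K : ℕ, ∀ k : ℕ, K ≤ k → ∀ n : ℕ,
    fM n m ≤ fLower n k δ := by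
  obtain ⟨K, hK⟩ := fM_le_lower (m := m) hδ
  refine ⟨K, fun k hk n => ?_⟩
  unfold fLower
  exact le_iInf fun B => le_iInf fun hB => le_iInf fun hP => hK k hk n B hB hP

theorem fLower_le_fUpper (n k : ℕ) (δ : ℝ) : fLower n k δ ≤ fUpper n k δ := by
  unfold fLower fUpper
  refine le_iInf fun B => le_iInf fun hB => le_iInf fun hP => ?_
  refine le_trans (b := lowerMinkowski B) ?_ (lower_le_upper B)
  exact iInf_le_of_le B (iInf_le_of_le hB (iInf_le_of_le hP le_rfl))

theorem fUpper_le_fM (n k : ℕ) {δ : ℝ} (hδ : δ ≤ 1) : fUpper n k δ ≤ fM n k := by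
  unfold fUpper fM
  refine le_iInf fun B => le_iInf fun hB => le_iInf fun hP => ?_
  refine iInf_le_of_le B (iInf_le_of_le hB (iInf_le_of_le ?_ le_rfl))
  intro r hr
  obtain ⟨a, ha⟩ := hP r hr
  refine ⟨a, range k, subset_rfl, ?_, fun j hj => ha j (mem_range.1 hj)⟩
  rw [card_range]
  have : (0 : ℝ) ≤ k := Nat.cast_nonneg k
  nlinarith

theorem fM_tendsto (n : ℕ) : Tendsto (fun k => fM n k) atTop (𝓝 (⨆ k, fM n k)) :=
  tendsto_atTop_iSup fun _ _ h => fM_mono h

theorem squeeze (n : ℕ) {δ : ℝ} (hδ : 0 < δ) (f : ℕ → EReal) (h1 : ∀ k, fLower n k δ ≤ f k)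
    (h2 : ∀ k, f k ≤ fM n k) : Tendsto f atTop (𝓝 (⨆ k, fM n k)) := by
  rw [tendsto_order]
  constructor
  · intro z hz
    obtain ⟨m, hm⟩ := lt_iSup_iff.1 hz
    obtain ⟨K, hK⟩ := fM_le_fLower m hδ
    filter_upwards [eventually_ge_atTop K] with k hk
    exact lt_of_lt_of_le hm ((hK k hk n).trans (h1 k))
  · intro z hz
    refine Eventually.of_forall fun k => ?_
    exact lt_of_le_of_lt ((h2 k).trans (le_iSup (fun k => fM n k) k)) hz

end Run7.h605.KD
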